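import Pool.Agent.Lib.MP_d89457_lc.NB.Main

/-!
# MP_d89457_lc: the Borel fragment of the bounded forcing axiom for Namba forcing is a theorem of ZFC

`Ω` is a set of cardinality `ℵ_2`, `Nam Ω` is Namba forcing, `B` (with `e : Nam Ω → B`) a Boolean completion.
In ZFC, with no hypothesis on the continuum:

* a completion exists;
* let `W n` (`n ∈ ω`) be maximal antichains of size `≤ ℵ_1`.  `Bor e W` (the algebra generated by arbitrary
  suprema of cells with complements and countable suprema) contains all conditions, and any `≤ ℵ_1` maximal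
  antichains, each countable and contained in `Bor e W` or of arbitrary size and consisting of suprema of
  cells, are met by one filter, which also meets all the `W n`;
* the number `ℵ_1` is optimal: for every index set of size `≥ ℵ_2` there are countable maximal antichains
  of suprema of cones which are met by no filter.
-/

set_option autoImplicit false

open Cardinal Pool.Agent.Lib.MPd89457.NB

theorem Pool.Agent.Results.MP_d89457_lc.BorelFragment.result (Ω : Type) (hΩ : #Ω = ℵ_ 2) :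
    (∃ (B : Type) (_ : CompleteBooleanAlgebra B) (e : Nam Ω → B), IsBC e) ∧
    ∀ (B : Type) [CompleteBooleanAlgebra B] (e : Nam Ω → B), IsBC e →
      (∀ W : ℕ → Set B, (∀ n, MaxAnti (W n)) → (∀ n, #(W n) ≤ ℵ_ 1) →
        (∀ T : Nam Ω, Bor e W (e T)) ∧
        ∀ (ι : Type), #ι ≤ ℵ_ 1 → ∀ A : ι → Set B, (∀ i, MaxAnti (A i)) →
          (∀ i, ((A i).Countable ∧ ∀ a ∈ A i, Bor e W a) ∨ ∀ a ∈ A i, Opn e W a) →
          ∃ G : Set B, IsFilt G ∧ (∀ i, (G ∩ A i).Nonempty) ∧ ∀ n, (G ∩ W n).Nonempty) ∧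
      ∀ ι : Type, ℵ_ 2 ≤ #ι → ∃ A : ι → Set B, (∀ i, MaxAnti (A i)) ∧ (∀ i, (A i).Countable) ∧
        (∀ i, ∀ a ∈ A i, Opn e (fun _ => {⊤}) a) ∧
        ¬ ∃ G : Set B, IsFilt G ∧ ∀ i, (G ∩ A i).Nonempty := by
  refine ⟨(allTPS Ω hΩ).1, fun B _ e he => ?_⟩
  obtain ⟨_, _, h3, _, h5⟩ := (allTPS Ω hΩ).2 B e he
  exact ⟨fun W hW hW1 => ⟨fun T => allCND Ω B e hΩ he W hW T, h5 W hW hW1⟩, h3⟩
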