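import Pool.Agent.Lib.MP_d89457_lc.NB.Main

/-!
# MP_d89457_lc: the bounded forcing axiom for Namba forcing and any number of countable antichains

`Ω` is a set of cardinality `ℵ_2`, `Nam Ω` is Namba forcing, `B` (with `e : Nam Ω → B`) a Boolean completion,
`BFA B ι lam`: every family of maximal antichains of `B`, indexed by `ι`, of size `≤ lam`, is met by a
filter.  For every index set `ι` the axiom for countable antichains is equivalent to the axiom for
antichains of size `≤ ℵ_1`; both hold if and only if `ι` is countable, or `ι` has size `ℵ_1` and the axiom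
BFA(N) of the problem (`ℵ_1` antichains of size `≤ ℵ_1`) holds.
-/

set_option autoImplicit false

open Cardinal Pool.Agent.Lib.MPd89457.NB

theorem Pool.Agent.Results.MP_d89457_lc.CountableAntichains.result (Ω : Type) (hΩ : #Ω = ℵ_ 2)
    (B : Type) [CompleteBooleanAlgebra B] (e : Nam Ω → B) (he : IsBC e) (O : Type) (hO : #O = ℵ_ 1)
    (ι : Type) :
    (BFA B ι ℵ₀ ↔ #ι ≤ ℵ₀ ∨ (#ι = ℵ_ 1 ∧ BFA B O (ℵ_ 1))) ∧
    (BFA B ι (ℵ_ 1) ↔ #ι ≤ ℵ₀ ∨ (#ι = ℵ_ 1 ∧ BFA B O (ℵ_ 1))) := by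
  obtain ⟨h1, _, h3, h4, _⟩ := (allTPS Ω hΩ).2 B e he
  have h01 : (ℵ₀ : Cardinal.{0}) ≤ ℵ_ 1 := Cardinal.aleph0_le_aleph 1
  have hmono : BFA B ι (ℵ_ 1) → BFA B ι ℵ₀ := fun h A hA hl => h A hA fun i => (hl i).trans h01
  have hdown : BFA B ι ℵ₀ → #ι ≤ ℵ₀ ∨ #ι = ℵ_ 1 := by
    intro h
    by_contra hcon
    rw [not_or, not_le] at hcon
    have h2 : ℵ_ 2 ≤ #ι := by
      have hs1 : ℵ_ 1 ≤ #ι := by
        rw [← Cardinal.succ_aleph0]
        exact Order.succ_le_of_lt hcon.1
      have hs2 : ℵ_ 1 < #ι := lt_of_le_of_ne hs1 (Ne.symm hcon.2)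
      have h12 : Order.succ (ℵ_ 1 : Cardinal.{0}) = ℵ_ 2 := by
        rw [← Cardinal.aleph_succ]
        congr 1
        exact one_add_one_eq_two
      rw [← h12]
      exact Order.succ_le_of_lt hs2
    obtain ⟨A, hA, hc, _, hno⟩ := h3 ι h2
    exact hno (h A hA fun i => Cardinal.le_aleph0_iff_set_countable.2 (hc i))
  have htr : #ι = ℵ_ 1 → (BFA B ι (ℵ_ 1) ↔ BFA B O (ℵ_ 1)) := by
    intro hι
    obtain ⟨f⟩ := Cardinal.eq.1 (hι.trans hO.symm)
    constructor
    · intro h A hA hl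
      obtain ⟨G, hG, hGA⟩ := h (fun i => A (f i)) (fun i => hA _) (fun i => hl _)
      refine ⟨G, hG, fun o => ?_⟩
      have := hGA (f.symm o)
      simpa using this
    · intro h A hA hl
      obtain ⟨G, hG, hGA⟩ := h (fun o => A (f.symm o)) (fun i => hA _) (fun i => hl _)
      refine ⟨G, hG, fun i => ?_⟩
      have := hGA (f i)
      simpa using this
  have hcount : #ι ≤ ℵ₀ → BFA B ι (ℵ_ 1) := fun hι A hA _ =>
    h1 ι (Cardinal.mk_le_aleph0_iff.1 hι) A hA
  constructor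
  · constructor
    · intro h
      rcases hdown h with h' | h'
      · exact Or.inl h'
      · exact Or.inr ⟨h', (htr h').1 ((h4 ι h').1 h)⟩
    · rintro (h | ⟨h, h'⟩)
      · exact hmono (hcount h)
      · exact hmono ((htr h).2 h')
  · constructor
    · intro h
      rcases hdown (hmono h) with h' | h'
      · exact Or.inl h'
      · exact Or.inr ⟨h', (htr h').1 h⟩
    · rintro (h | ⟨h, h'⟩)
      · exact hcount h
      · exact (htr h).2 h'
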