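import Pool.Agent.Lib.MP_d89457_lc.NB.MainR
import Pool.Agent.Lib.MP_d89457_lc.NB.MThr

/-!
# MP_d89457_lc: the bounded forcing axiom for Namba forcing refutes morasses and Silver's principle W

`O` is `ω_1`, `Ω` is `ω_2` (well-ordered types), `Nam Ω` is Namba forcing, `B` (with `e : Nam Ω → B`) a Boolean
completion.  Suppose that for some uncountable `ι` and some infinite `lam` every family of maximal
antichains of `B` of size `≤ lam`, indexed by `ι`, is met by a filter (for `ι = ω_1`, `lam = ℵ_1` this is the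
axiom BFA(N) of the problem).  Then (in ZFC, no hypothesis on the continuum):
(1) the covering form `CovW` of Silver's principle W fails;
(2) Silver's principle W fails;
(3) there is no simplified `(ω_1, 1)`-morass (`Mor φ F G`).
-/

set_option autoImplicit false

open Cardinal Pool.Agent.Lib.MPd89457.NB

theorem Pool.Agent.Results.MP_d89457_lc.MorassRefutes.result (O Ω : Type) [LinearOrder O]
    [WellFoundedLT O] [LinearOrder Ω] [WellFoundedLT Ω] (hO : IsO1 O) (hΩ : IsO2 Ω)
    (B : Type) [CompleteBooleanAlgebra B] (e : Nam Ω → B) (he : IsBC e)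
    (ι : Type) (lam : Cardinal.{0}) (hι : Uncountable ι) (hlam : ℵ₀ ≤ lam) (hBFA : BFA B ι lam) :
    ¬ CovW O ∧ ¬ SilverW O ∧
    ¬ ∃ (φ : O → O) (F : O → O → Set (O → O)) (G : O → Set (O → Ω)), Mor φ F G := by
  have red : BFA B O (ℵ_ 1) := by
    by_contra h
    exact not_countable_iff.2 hι
      ((iff_countable_of_not Ω hΩ.1 B e he O hO.1 h ι lam hlam).1 hBFA)
  have h1 : ¬ CovW O := fun hC => allCVR Ω B e hΩ.1 he O hO hC red
  refine ⟨h1, fun hW => h1 (specSWC O hO hW), ?_⟩
  rintro ⟨φ, F, G, hM⟩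
  obtain ⟨y, hy⟩ := allMDE O Ω φ F G hM
  exact h1 (allMWC O Ω hO hΩ φ F G y hy)
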