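import Pool.Agent.Lib.MP_d89457_lc.NB.MainR

/-!
# MP_d89457_lc: the bounded forcing axiom for Namba forcing implies a partition relation for trees

`Ω` is a set of cardinality `ℵ_2`, `Nam Ω` is Namba forcing, `B` (with `e : Nam Ω → B`) its Boolean
completion, `O` is `ω_1` (a linear order of size `ℵ_1` with countable initial segments).
Assume `BFA B O (ℵ_ 1)` (BFA(N)).  Let `Y` be a set of at least `ℵ_2` functions `O → X`; assume that the
tree of their initial segments has levels of size `≤ ℵ_1` (`Thin`), or that `X` is countable and CH holds.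
For `ε`, `ξ` in `O` let `K ε ξ` be a set of finite sequences from `X` (lists, newest entry first).  Then
(1) there are `ε`, a finite sequence `t` from `Y` and a subset `A` of `Y` of size `ℵ_2` such that for every
countable subset of `A` there are uncountably many levels `ξ` at which the extensions of `t` by one
element of this subset are all in `K ε ξ`; or
(2) there are cofinal branches `z 0, z 1, ..` of the tree, pairwise different from `m` on, such that for
every `ε` there are a level `ξ > ε` and `k` such that at level `ξ` the sequence `(z 0, .., z n)` is outside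
of `K ε ξ` for all `n ≥ k`, and for uncountably many `ε` this holds with `k = m`
(`br b n = [b (n-1), .., b 0]`).
-/

set_option autoImplicit false

open Cardinal Pool.Agent.Lib.MPd89457.NB

theorem Pool.Agent.Results.MP_d89457_lc.TreePartition.result (Ω : Type) (hΩ : #Ω = ℵ_ 2)
    (B : Type) [CompleteBooleanAlgebra B] (e : Nam Ω → B) (he : IsBC e)
    (O X : Type) [LinearOrder O] (hO : IsO1 O) (hBFA : BFA B O (ℵ_ 1))
    (Y : Set (O → X)) (K : O → O → List X → Prop) (hY : ℵ_ 2 ≤ #Y)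
    (hT : Thin Y ∨ (Countable X ∧ (2 : Cardinal.{0}) ^ ℵ₀ = ℵ_ 1)) :
    (∃ (ε : O) (t : List (O → X)) (A : Set (O → X)), (∀ y ∈ t, y ∈ Y) ∧ A ⊆ Y ∧ #A = ℵ_ 2 ∧
      ∀ q : ℕ → O → X, (∀ n, q n ∈ A) →
        ¬ {ξ | ∀ n, K ε ξ ((q n :: t).map fun y => y ξ)}.Countable) ∨
    ∃ (z : ℕ → O → X) (m : ℕ), (∀ n ≥ m, ∀ j < n, z n ≠ z j) ∧ (∀ n, Clo Y (z n)) ∧
      (∀ ε, ∃ ξ, ε < ξ ∧ ∃ k, ∀ n ≥ k, ¬ K ε ξ (br (fun i => z i ξ) (n + 1))) ∧
      ¬ {ε | ∃ ξ, ε < ξ ∧ ∀ n ≥ m, ¬ K ε ξ (br (fun i => z i ξ) (n + 1))}.Countable := by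
  have hThin : Thin Y := by
    rcases hT with hT | ⟨hX, hCH⟩
    · exact hT
    · have hYne : (#Y) ≠ 0 := by
        intro h0
        rw [h0] at hY
        have h2 := (Cardinal.aleph_pos 2).trans_le hY
        exact lt_irrefl _ h2
      obtain ⟨⟨y0, hy0⟩⟩ := Cardinal.mk_ne_zero_iff.1 hYne
      classical
      intro ξ
      let ext : (Set.Iic ξ → X) → O → X := fun f ζ => if h : ζ ≤ ξ then f ⟨ζ, h⟩ else y0 ζ
      refine ⟨Set.range ext, ?_, ?_⟩
      · refine le_trans Cardinal.mk_range_le ?_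
        have h1 : #(Set.Iic ξ → X) = #X ^ #(Set.Iic ξ) := by
          rw [Cardinal.power_def]
        rw [h1, ← hCH, Cardinal.two_power_aleph0, ← Cardinal.aleph0_power_aleph0]
        have h2 : #X ≤ ℵ₀ := Cardinal.mk_le_aleph0_iff.2 hX
        have h3 : #(Set.Iic ξ) ≤ ℵ₀ := Cardinal.le_aleph0_iff_set_countable.2 (hO.2 ξ)
        exact le_trans (Cardinal.power_le_power_right h2)
          (Cardinal.power_le_power_left Cardinal.aleph0_ne_zero h3)
      · intro y _
        let f : Set.Iic ξ → X := fun ζ => y ζ.1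
        refine ⟨ext f, ⟨f, rfl⟩, ?_⟩
        intro ζ hζ
        have h1 : ext f ζ = y ζ := dif_pos hζ
        exact h1.symm
  rcases allZTQ Ω B e hΩ he O X hO hBFA Y K hY hThin with h | ⟨z, m, hz1, hz2, hz3⟩
  · exact Or.inl h
  · right
    have hcov : (Set.univ : Set O) ⊆
        ⋃ k : ℕ, {ε | ∃ ξ, ε < ξ ∧ ∀ n ≥ k, ¬ K ε ξ (br (fun i => z i ξ) (n + 1))} := by
      intro ε _
      obtain ⟨ξ, hξ, k, hk⟩ := hz3 ε
      exact Set.mem_iUnion.2 ⟨k, ξ, hξ, hk⟩
    have hunc : ¬ (Set.univ : Set O).Countable := by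
      intro h
      have h3 : #O ≤ ℵ₀ := by
        rw [← mk_univ]
        exact Cardinal.le_aleph0_iff_set_countable.2 h
      rw [hO.1] at h3
      exact absurd h3 (not_le.2 (by rw [← aleph_zero]; exact aleph_lt_aleph.2 (by exact zero_lt_one)))
    have hk : ∃ k : ℕ,
        ¬ {ε | ∃ ξ, ε < ξ ∧ ∀ n ≥ k, ¬ K ε ξ (br (fun i => z i ξ) (n + 1))}.Countable := by
      by_contra hcon
      push Not at hcon
      exact hunc ((Set.countable_iUnion hcon).mono hcov)
    obtain ⟨k, hk⟩ := hk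
    refine ⟨z, max m k, fun n hn => hz1 n (le_trans (le_max_left _ _) hn), hz2, hz3, ?_⟩
    intro h
    apply hk
    refine h.mono ?_
    rintro ε ⟨ξ, hξ, hξ2⟩
    exact ⟨ξ, hξ, fun n hn => hξ2 n (le_trans (le_max_right _ _) hn)⟩
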